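import Pool.Agent.MHP.StmtsT

/-!
# MHP, row BLK: the blocks of the partition `π₀.comap ret`
-/

set_option autoImplicit false

namespace Pool.Agent.MHP.H77

open Pool.Agent.HMT Pool.Agent.MHP

/-- the blocks without `x` -/
theorem isoA {V W : Type} (X : SimpleGraph W) (x : W) (Z : SimpleGraph V) (r : V) (π₀ : Setoid W)
    (v : W) (hv : ¬ π₀.r v x) : Nonempty ((X.induce {w | π₀.r w v}) ≃g
      ((glue X x Z r).induce {q | (π₀.comap (ret r x)).r q (Sum.inl v)})) := by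
  let f : {w | π₀.r w v} → {q | (π₀.comap (ret r x)).r q (Sum.inl v)} :=
    fun w => ⟨Sum.inl w.1, w.2⟩
  have hf : Function.Bijective f := by
    constructor
    · intro a b h
      exact Subtype.ext (Sum.inl.inj (congrArg Subtype.val h))
    · rintro ⟨q | u, h⟩
      · exact ⟨⟨q, h⟩, rfl⟩
      · have h1 : π₀.r x v := h
        exact absurd (π₀.symm' h1) hv
  exact ⟨⟨Equiv.ofBijective f hf, Iff.rfl⟩⟩

/-- the block of `x` -/
theorem isoB {V W : Type} (X : SimpleGraph W) (x : W) (Z : SimpleGraph V) (r : V) (π₀ : Setoid W)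
    (p : W ⊕ {v : V // v ≠ r}) (hp : π₀.r (ret r x p) x) :
    Nonempty ((glue (X.induce {w | π₀.r w x}) ⟨x, π₀.refl' x⟩ Z r) ≃g
      ((glue X x Z r).induce {q | (π₀.comap (ret r x)).r q p})) := by
  let f : {w | π₀.r w x} ⊕ {v : V // v ≠ r} → {q | (π₀.comap (ret r x)).r q p} :=
    Sum.elim (fun w => ⟨Sum.inl w.1, π₀.trans' w.2 (π₀.symm' hp)⟩)
      (fun u => ⟨Sum.inr u, π₀.symm' hp⟩)
  have hf : Function.Bijective f := by
    constructor
    · rintro (a | a) (b | b) h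
      · have h1 : (Sum.inl a.1 : W ⊕ {v : V // v ≠ r}) = Sum.inl b.1 := congrArg Subtype.val h
        exact congrArg Sum.inl (Subtype.ext (Sum.inl.inj h1))
      · have h1 : (Sum.inl a.1 : W ⊕ {v : V // v ≠ r}) = Sum.inr b := congrArg Subtype.val h
        exact absurd h1 (by simp)
      · have h1 : (Sum.inr a : W ⊕ {v : V // v ≠ r}) = Sum.inl b.1 := congrArg Subtype.val h
        exact absurd h1 (by simp)
      · have h1 : (Sum.inr a : W ⊕ {v : V // v ≠ r}) = Sum.inr b := congrArg Subtype.val h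
        exact congrArg Sum.inr (Sum.inr.inj h1)
    · rintro ⟨q | u, h⟩
      · have h1 : π₀.r q (ret r x p) := h
        exact ⟨Sum.inl ⟨q, π₀.trans' h1 hp⟩, rfl⟩
      · exact ⟨Sum.inr u, rfl⟩
  refine ⟨⟨Equiv.ofBijective f hf, ?_⟩⟩
  rintro (a | a) (b | b)
  · exact Iff.rfl
  · show (a.1 = x ∧ Z.Adj r b.1) ↔ (a = ⟨x, π₀.refl' x⟩ ∧ Z.Adj r b.1)
    rw [Subtype.ext_iff]
  · show (b.1 = x ∧ Z.Adj r a.1) ↔ (b = ⟨x, π₀.refl' x⟩ ∧ Z.Adj r a.1)
    rw [Subtype.ext_iff]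
  · exact Iff.rfl

/-- **BLK** -/
theorem blk : BlkStmt := by
  intro P V W _ _ X x Z r π₀
  constructor
  · intro h
    exact ⟨fun v hv => (P.iso _ _ (isoA X x Z r π₀ v hv)).2 (h (Sum.inl v)),
      (P.iso _ _ (isoB X x Z r π₀ (Sum.inl x) (π₀.refl' x))).2 (h (Sum.inl x))⟩
  · rintro ⟨h1, h2⟩ p
    by_cases hp : π₀.r (ret r x p) x
    · exact (P.iso _ _ (isoB X x Z r π₀ p hp)).1 h2
    · rcases p with v | u
      · exact (P.iso _ _ (isoA X x Z r π₀ v hp)).1 (h1 v hp)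
      · exact absurd (π₀.refl' x) hp

end Pool.Agent.MHP.H77
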